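import Mathlib

/-!
# Two distinct RGF patterns that are `k`-Wilf equivalent for every `k`

For `1 ≤ i < s` the patterns `1^i 2 1^(s-i)` and `1^(s-i) 2 1^i` are contained the same number of
times, in the sense that for all `n` and `k` there are equally many restricted growth functions of
length `n` with exactly `k` copies of the first and with exactly `k` copies of the second.

Idea: let `Z` be the set of positions of the letter `1` in an RGF `w` and let `u` be the RGF formed
by the other letters, lowered by one. The copies of `1^i 2 1^(s-i)` in `w` are the copies in `u` and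
the sets of positions `p_0 < ... < p_s` with `p_t ∈ Z` exactly for `t ≠ i`. The latter are exchanged
with the ones for `s - i` when `Z` is reflected in the window `[0, max Z]`.
-/

set_option autoImplicit false

namespace Pool.Agent.Results.MP_2348bc_co.MirrorPatterns

open Finset

/-- `w` is a restricted growth function: all letters are positive, the first letter is `1`, and
every other letter is at most one larger than some earlier letter. -/
def IsRGF {n : ℕ} (w : Fin n → ℕ) : Prop :=
  (∀ p, 1 ≤ w p) ∧ (∀ p : Fin n, p.val = 0 → w p = 1) ∧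
    ∀ p : Fin n, 0 < p.val → ∃ q : Fin n, q < p ∧ w p ≤ w q + 1

/-- The increasing sequence of positions `e` is a copy of the pattern `v` in `w`. -/
def IsCopy {m n : ℕ} (v : Fin m → ℕ) (w : Fin n → ℕ) (e : Fin m → Fin n) : Prop :=
  StrictMono e ∧ ∀ a b, (w (e a) < w (e b) ↔ v a < v b) ∧ (w (e a) = w (e b) ↔ v a = v b)

/-- The number of copies of `v` in `w`. -/
noncomputable def copies {m n : ℕ} (v : Fin m → ℕ) (w : Fin n → ℕ) : ℕ :=
  Nat.card {e : Fin m → Fin n // IsCopy v w e}

/-- The number of restricted growth functions of length `n` with exactly `k` copies of `v`. -/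
noncomputable def count (n k : ℕ) {m : ℕ} (v : Fin m → ℕ) : ℕ :=
  Nat.card {w : Fin n → ℕ // IsRGF w ∧ copies v w = k}

/-- The pattern `1^i 2 1^(s-i)`. -/
def pat (s i : ℕ) : Fin (s + 1) → ℕ := fun t => if t.val = i then 2 else 1

/-- The number of increasing sequences of `s + 1` positions of which exactly the one with index `i`
is not in `Z`. -/
noncomputable def F (s i : ℕ) {n : ℕ} (Z : Finset (Fin n)) : ℕ :=
  Nat.card {e : Fin (s + 1) → Fin n // StrictMono e ∧ ∀ t, (e t ∈ Z ↔ t.val ≠ i)}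

lemma isCopy_pat {s i n : ℕ} (hi : 1 ≤ i) (his : i < s) (w : Fin n → ℕ)
    (e : Fin (s + 1) → Fin n) : IsCopy (pat s i) w e ↔
      StrictMono e ∧ (∀ t : Fin (s + 1), t.val ≠ i → w (e t) = w (e 0)) ∧
        w (e 0) < w (e ⟨i, by omega⟩) := by
  have h0 : pat s i 0 = 1 := by
    unfold pat
    rw [if_neg]
    simp only [Fin.val_zero]
    omega
  have hI : pat s i ⟨i, by omega⟩ = 2 := by simp [pat]
  constructor
  · rintro ⟨h1, h2⟩
    refine ⟨h1, fun t ht => ?_, ?_⟩
    · refine (h2 t 0).2.2 ?_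
      rw [h0]
      simp [pat, ht]
    · refine (h2 0 ⟨i, by omega⟩).1.2 ?_
      rw [h0, hI]
      omega
  · rintro ⟨h1, h2, h3⟩
    refine ⟨h1, fun a b => ?_⟩
    by_cases ha : a.val = i
    · have ha' : a = ⟨i, by omega⟩ := Fin.ext ha
      by_cases hb : b.val = i
      · have hb' : b = ⟨i, by omega⟩ := Fin.ext hb
        rw [ha', hb']
        simp
      · have e1 := h2 b hb
        have e2 : pat s i b = 1 := by simp [pat, hb]
        rw [ha', e1, e2, hI]
        constructor <;> omega
    · have e1 := h2 a ha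
      have e2 : pat s i a = 1 := by simp [pat, ha]
      by_cases hb : b.val = i
      · have hb' : b = ⟨i, by omega⟩ := Fin.ext hb
        rw [hb', e1, e2, hI]
        constructor <;> omega
      · have e3 := h2 b hb
        have e4 : pat s i b = 1 := by simp [pat, hb]
        rw [e1, e2, e3, e4]
        simp

lemma copies_split {s i n m : ℕ} (hi : 1 ≤ i) (his : i < s) (w : Fin n → ℕ)
    (Z : Finset (Fin n)) (hZ : ∀ p, p ∈ Z → w p = 1) (E : Fin m → Fin n) (hE : StrictMono E)
    (hr : ∀ p, p ∉ Z ↔ ∃ t, E t = p) (u : Fin m → ℕ) (hu1 : ∀ t, 1 ≤ u t)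
    (hu : ∀ t, w (E t) = u t + 1) :
    copies (pat s i) w = copies (pat s i) u + F s i Z := by
  classical
  have hZ' : ∀ p, w p = 1 ↔ p ∈ Z := by
    intro p
    refine ⟨fun h => ?_, hZ p⟩
    by_contra hp
    obtain ⟨t, rfl⟩ := (hr p).1 hp
    have := hu t
    have := hu1 t
    omega
  have hge : ∀ p, 1 ≤ w p := by
    intro p
    by_cases hp : p ∈ Z
    · rw [hZ p hp]
    · obtain ⟨t, rfl⟩ := (hr p).1 hp
      rw [hu t]
      omega
  unfold copies F
  simp only [Nat.card_eq_fintype_card, Fintype.card_subtype]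
  rw [← Finset.card_filter_add_card_filter_not (s := univ.filter (fun e => IsCopy (pat s i) w e))
    (fun e => w (e 0) ≠ 1)]
  congr 1
  · -- copies avoiding `Z`
    symm
    refine Finset.card_bij (fun e _ => fun t => E (e t)) ?_ ?_ ?_
    · intro e he
      rw [mem_filter] at he
      rw [mem_filter, mem_filter]
      refine ⟨⟨mem_univ _, ?_⟩, ?_⟩
      · rw [isCopy_pat hi his] at he ⊢
        obtain ⟨-, h1, h2, h3⟩ := he
        refine ⟨fun a b hab => hE (h1 hab), fun t ht => ?_, ?_⟩
        · rw [hu, hu, h2 t ht]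
        · rw [hu, hu]
          omega
      · rw [hu]
        have := hu1 (e 0)
        omega
    · intro e _ e' _ h
      funext t
      exact hE.injective (congrFun h t)
    · intro e he
      rw [mem_filter, mem_filter] at he
      obtain ⟨⟨-, h⟩, h0⟩ := he
      rw [isCopy_pat hi his] at h
      obtain ⟨h1, h2, h3⟩ := h
      have hnot : ∀ t, e t ∉ Z := by
        intro t ht
        have := hZ _ ht
        by_cases hti : t.val = i
        · have hte : t = ⟨i, by omega⟩ := Fin.ext hti
          rw [hte] at this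
          have := hge (e 0)
          omega
        · rw [h2 t hti] at this
          exact h0 this
      choose g hg using fun t => (hr (e t)).1 (hnot t)
      refine ⟨g, ?_, funext hg⟩
      rw [mem_filter, isCopy_pat hi his]
      refine ⟨mem_univ _, fun a b hab => ?_, fun t ht => ?_, ?_⟩
      · rw [← hE.lt_iff_lt, hg, hg]
        exact h1 hab
      · have := h2 t ht
        rw [← hg t, ← hg 0, hu, hu] at this
        omega
      · rw [← hg 0, ← hg ⟨i, by omega⟩, hu, hu] at h3
        omega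
  · -- copies meeting `Z`
    congr 1
    ext e
    rw [mem_filter, mem_filter, mem_filter]
    constructor
    · rintro ⟨⟨-, h⟩, h0⟩
      rw [isCopy_pat hi his] at h
      obtain ⟨h1, h2, h3⟩ := h
      rw [not_not] at h0
      refine ⟨mem_univ _, h1, fun t => ?_⟩
      by_cases hti : t.val = i
      · have hte : t = ⟨i, by omega⟩ := Fin.ext hti
        rw [← hZ', hte]
        simp only [ne_eq, not_true_eq_false, iff_false]
        omega
      · rw [← hZ', h2 t hti, h0]
        simp [hti]
    · rintro ⟨-, h1, h2⟩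
      have hz0 : w (e 0) = 1 := by
        rw [hZ', h2]
        simp only [Fin.val_zero]
        omega
      refine ⟨⟨mem_univ _, ?_⟩, by simp [hz0]⟩
      rw [isCopy_pat hi his]
      refine ⟨h1, fun t ht => ?_, ?_⟩
      · rw [hz0, hZ', h2]
        exact ht
      · have h3 : ¬ (w (e ⟨i, by omega⟩) = 1) := by
          rw [hZ', h2]
          simp
        have := hge (e ⟨i, by omega⟩)
        omega

lemma rgf_iff {n m : ℕ} (w : Fin (n + 1) → ℕ)
    (Z : Finset (Fin (n + 1))) (h0 : (0 : Fin (n + 1)) ∈ Z) (hZ : ∀ p, p ∈ Z → w p = 1)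
    (E : Fin m → Fin (n + 1)) (hE : StrictMono E)
    (hr : ∀ p, p ∉ Z ↔ ∃ t, E t = p) (u : Fin m → ℕ) (hu : ∀ t, w (E t) = u t + 1) :
    (IsRGF w ∧ ∀ t, 1 ≤ u t) ↔ IsRGF u := by
  constructor
  · rintro ⟨⟨h1, h2, h3⟩, h4⟩
    refine ⟨h4, fun t ht => ?_, fun t ht => ?_⟩
    · have hp : 0 < (E t).val := by
        rcases Nat.eq_zero_or_pos (E t).val with h | h
        · exfalso
          have e0 : E t = 0 := Fin.ext h
          exact ((hr (E t)).2 ⟨t, rfl⟩) (e0 ▸ h0)
        · exact h
      obtain ⟨q, hq, hqw⟩ := h3 (E t) hp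
      have hqZ : q ∈ Z := by
        by_contra hq'
        obtain ⟨t', rfl⟩ := (hr q).1 hq'
        have := hE.lt_iff_lt.1 hq
        have h5 : t'.val < t.val := this
        omega
      rw [hZ q hqZ, hu] at hqw
      have := h4 t
      omega
    · have hp : 0 < (E t).val := by
        rcases Nat.eq_zero_or_pos (E t).val with h | h
        · exfalso
          have e0 : E t = 0 := Fin.ext h
          exact ((hr (E t)).2 ⟨t, rfl⟩) (e0 ▸ h0)
        · exact h
      obtain ⟨q, hq, hqw⟩ := h3 (E t) hp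
      by_cases hqZ : q ∈ Z
      · rw [hZ q hqZ, hu] at hqw
        have := h4 t
        refine ⟨⟨0, by omega⟩, ht, ?_⟩
        omega
      · obtain ⟨t', rfl⟩ := (hr q).1 hqZ
        refine ⟨t', hE.lt_iff_lt.1 hq, ?_⟩
        rw [hu, hu] at hqw
        omega
  · rintro ⟨h1, h2, h3⟩
    refine ⟨⟨fun p => ?_, fun p hp => ?_, fun p hp => ?_⟩, h1⟩
    · by_cases hpZ : p ∈ Z
      · rw [hZ p hpZ]
      · obtain ⟨t, rfl⟩ := (hr p).1 hpZ
        rw [hu]
        omega
    · have : p = 0 := Fin.ext hp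
      rw [this]
      exact hZ 0 h0
    · by_cases hpZ : p ∈ Z
      · refine ⟨0, hp, ?_⟩
        rw [hZ p hpZ, hZ 0 h0]
        omega
      · obtain ⟨t, rfl⟩ := (hr p).1 hpZ
        rcases Nat.eq_zero_or_pos t.val with h | h
        · refine ⟨0, hp, ?_⟩
          rw [hu, h2 t h, hZ 0 h0]
        · obtain ⟨q, hq, hqw⟩ := h3 t h
          refine ⟨E q, hE hq, ?_⟩
          rw [hu, hu]
          omega

/-- the words with a given set of positions of the letter `1` -/
lemma card_fiber {s i n : ℕ} (hi : 1 ≤ i) (his : i < s) (k : ℕ) (Z : Finset (Fin (n + 1)))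
    (h0 : (0 : Fin (n + 1)) ∈ Z) :
    Nat.card {w : Fin (n + 1) → ℕ // (IsRGF w ∧ copies (pat s i) w = k) ∧
      (univ.filter fun p => w p = 1) = Z} =
    Nat.card {u : Fin (Zᶜ.card) → ℕ // IsRGF u ∧ copies (pat s i) u + F s i Z = k} := by
  classical
  obtain ⟨E, hEdef⟩ : ∃ E : Fin (Zᶜ.card) → Fin (n + 1), E = ⇑(Zᶜ.orderEmbOfFin rfl) :=
    ⟨_, rfl⟩
  have hE : StrictMono E := by
    rw [hEdef]
    exact (Zᶜ.orderEmbOfFin rfl).strictMono
  have hr : ∀ p, p ∉ Z ↔ ∃ t, E t = p := by
    intro p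
    have h := Finset.range_orderEmbOfFin Zᶜ rfl
    have h2 : p ∈ Set.range (Zᶜ.orderEmbOfFin rfl) ↔ p ∈ (Zᶜ : Finset (Fin (n + 1))) := by
      rw [h]
      exact Finset.mem_coe
    rw [Finset.mem_compl] at h2
    rw [← h2, hEdef]
    exact Set.mem_range
  symm
  let W : (Fin (Zᶜ.card) → ℕ) → Fin (n + 1) → ℕ := fun u p =>
    if h : ∃ t, E t = p then u h.choose + 1 else 1
  have hW1 : ∀ u t, W u (E t) = u t + 1 := by
    intro u t
    have h : ∃ t', E t' = E t := ⟨t, rfl⟩
    have h2 : h.choose = t := hE.injective h.choose_spec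
    simp only [W]
    rw [dif_pos h, h2]
  have hW2 : ∀ u p, p ∈ Z → W u p = 1 := by
    intro u p hp
    simp only [W]
    rw [dif_neg]
    intro h
    exact (hr p).2 h hp
  refine Nat.card_congr (Equiv.ofBijective (fun u => ⟨W u.1, ?_, ?_⟩) ⟨?_, ?_⟩)
  · obtain ⟨u, hu, huk⟩ := u
    have h1 := (rgf_iff (W u) Z h0 (hW2 u) E hE hr u (hW1 u)).2 hu
    refine ⟨h1.1, ?_⟩
    rw [copies_split hi his (W u) Z (hW2 u) E hE hr u h1.2 (hW1 u)]
    exact huk
  · obtain ⟨u, hu, huk⟩ := u
    have h1 := (rgf_iff (W u) Z h0 (hW2 u) E hE hr u (hW1 u)).2 hu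
    ext p
    rw [mem_filter]
    constructor
    · rintro ⟨-, h⟩
      by_contra hp
      obtain ⟨t, ht⟩ := (hr p).1 hp
      have h3 : W u (E t) = 1 := by
        rw [ht]
        exact h
      have h4 := hW1 u t
      have h5 := h1.2 t
      omega
    · intro hp
      exact ⟨mem_univ _, hW2 u p hp⟩
  · rintro ⟨u, hu⟩ ⟨u', hu'⟩ h
    have h2 : W u = W u' := congrArg Subtype.val h
    apply Subtype.ext
    funext t
    have h3 := congrFun h2 (E t)
    rw [hW1, hW1] at h3
    exact Nat.succ.inj h3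
  · rintro ⟨w, ⟨hw, hwk⟩, hwZ⟩
    have hZ : ∀ p, w p = 1 ↔ p ∈ Z := by
      intro p
      rw [← hwZ, mem_filter]
      simp
    have hge : ∀ t, 2 ≤ w (E t) := by
      intro t
      have h1 := hw.1 (E t)
      have h2 : w (E t) ≠ 1 := by
        intro h
        exact (hr (E t)).2 ⟨t, rfl⟩ ((hZ _).1 h)
      omega
    let u : Fin (Zᶜ.card) → ℕ := fun t => w (E t) - 1
    have hu : ∀ t, w (E t) = u t + 1 := by
      intro t
      have := hge t
      simp only [u]
      omega
    have hu1 : ∀ t, 1 ≤ u t := by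
      intro t
      have := hge t
      simp only [u]
      omega
    have hZ1 : ∀ p, p ∈ Z → w p = 1 := fun p => (hZ p).2
    refine ⟨⟨u, (rgf_iff w Z h0 hZ1 E hE hr u hu).1 ⟨hw, hu1⟩, ?_⟩, ?_⟩
    · rw [← copies_split hi his w Z hZ1 E hE hr u hu1 hu]
      exact hwk
    · apply Subtype.ext
      funext p
      show W u p = w p
      by_cases hp : p ∈ Z
      · rw [hZ1 p hp]
        exact hW2 u p hp
      · obtain ⟨t, rfl⟩ := (hr p).1 hp
        rw [hu]
        exact hW1 u t

lemma rgf_le {n : ℕ} (w : Fin n → ℕ) (hw : IsRGF w) (p : Fin n) : w p ≤ p.val + 1 := by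
  obtain ⟨p, hp⟩ := p
  induction p using Nat.strong_induction_on with
  | _ p ih =>
    rcases Nat.eq_zero_or_pos p with h | h
    · rw [hw.2.1 ⟨p, hp⟩ h]
      omega
    · obtain ⟨q, hq, hqw⟩ := hw.2.2 ⟨p, hp⟩ h
      have hq' : q.val < p := hq
      have := ih q.val hq' q.2
      have h3 : w q ≤ q.val + 1 := this
      show w ⟨p, hp⟩ ≤ p + 1
      omega

lemma finite_rgf (n : ℕ) (P : (Fin n → ℕ) → Prop) (hP : ∀ w, P w → IsRGF w) :
    Finite {w : Fin n → ℕ // P w} := by
  refine Finite.of_injective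
    (fun w : {w : Fin n → ℕ // P w} => fun p : Fin n =>
      (⟨w.1 p, by have := rgf_le w.1 (hP _ w.2) p; omega⟩ : Fin (n + 2))) ?_
  intro w w' h
  apply Subtype.ext
  funext p
  have := congrFun h p
  exact congrArg Fin.val this

/-- the window of `Z` -/
def top {n : ℕ} (Z : Finset (Fin n)) : ℕ := Z.sup Fin.val

/-- the reflection of `Z` in its window -/
def refl {n : ℕ} (Z : Finset (Fin n)) : Finset (Fin n) :=
  univ.filter fun p => ∃ z ∈ Z, p.val + z.val = top Z

lemma le_top {n : ℕ} (Z : Finset (Fin n)) {z : Fin n} (hz : z ∈ Z) : z.val ≤ top Z :=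
  Finset.le_sup (f := Fin.val) hz

lemma exists_top {n : ℕ} (Z : Finset (Fin n)) (hZ : Z.Nonempty) : ∃ z ∈ Z, z.val = top Z := by
  obtain ⟨z, hz, h⟩ := Finset.exists_mem_eq_sup Z hZ Fin.val
  exact ⟨z, hz, h.symm⟩

lemma mem_refl {n : ℕ} (Z : Finset (Fin n)) (p : Fin n) :
    p ∈ refl Z ↔ ∃ z ∈ Z, p.val + z.val = top Z := by
  simp [refl]

lemma zero_mem_refl {n : ℕ} (Z : Finset (Fin (n + 1))) (h0 : (0 : Fin (n + 1)) ∈ Z) :
    (0 : Fin (n + 1)) ∈ refl Z := by
  rw [mem_refl]
  obtain ⟨z, hz, h⟩ := exists_top Z ⟨0, h0⟩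
  exact ⟨z, hz, by simp [h]⟩

lemma top_refl {n : ℕ} (Z : Finset (Fin (n + 1))) (h0 : (0 : Fin (n + 1)) ∈ Z) :
    top (refl Z) = top Z := by
  apply le_antisymm
  · apply Finset.sup_le
    intro p hp
    obtain ⟨z, -, h⟩ := (mem_refl Z p).1 hp
    omega
  · obtain ⟨z, hz, h⟩ := exists_top Z ⟨0, h0⟩
    rw [← h]
    apply le_top
    rw [mem_refl]
    exact ⟨0, h0, by simp [h]⟩

lemma refl_refl {n : ℕ} (Z : Finset (Fin (n + 1))) (h0 : (0 : Fin (n + 1)) ∈ Z) :
    refl (refl Z) = Z := by
  ext q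
  rw [mem_refl, top_refl Z h0]
  constructor
  · rintro ⟨p, hp, hq⟩
    obtain ⟨z, hz, h⟩ := (mem_refl Z p).1 hp
    have : q = z := Fin.ext (by omega)
    rw [this]
    exact hz
  · intro hq
    have h1 := le_top Z hq
    obtain ⟨z, hz, h⟩ := exists_top Z ⟨0, h0⟩
    have h2 := z.2
    refine ⟨⟨top Z - q.val, by omega⟩, ?_, ?_⟩
    · rw [mem_refl]
      refine ⟨q, hq, ?_⟩
      show top Z - q.val + q.val = top Z
      omega
    · show q.val + (top Z - q.val) = top Z
      omega

lemma card_refl {n : ℕ} (Z : Finset (Fin (n + 1))) (h0 : (0 : Fin (n + 1)) ∈ Z) :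
    (refl Z).card = Z.card := by
  have key : ∀ Y : Finset (Fin (n + 1)), (0 : Fin (n + 1)) ∈ Y → Y.card ≤ (refl Y).card := by
    intro Y hY
    obtain ⟨z, hz, h⟩ := exists_top Y ⟨0, hY⟩
    have h2 := z.2
    refine Finset.card_le_card_of_injOn (fun q => ⟨top Y - q.val, by omega⟩) ?_ ?_
    · intro q hq
      have h1 := le_top Y (Finset.mem_coe.1 hq)
      rw [Finset.mem_coe, mem_refl]
      refine ⟨q, Finset.mem_coe.1 hq, ?_⟩
      show top Y - q.val + q.val = top Y
      omega
    · intro q hq q' hq' heq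
      have h1 := le_top Y (Finset.mem_coe.1 hq)
      have h1' := le_top Y (Finset.mem_coe.1 hq')
      have h3 : top Y - q.val = top Y - q'.val := congrArg Fin.val heq
      apply Fin.ext
      omega
  apply le_antisymm
  · have := key (refl Z) (zero_mem_refl Z h0)
    rwa [refl_refl Z h0] at this
  · exact key Z h0

/-- reflecting a sequence of positions -/
def flip {s n : ℕ} (T : ℕ) (hT : T < n + 1) (e : Fin (s + 1) → Fin (n + 1)) :
    Fin (s + 1) → Fin (n + 1) :=
  fun t => ⟨T - (e (Fin.rev t)).val, by omega⟩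

lemma flip_spec {s i n : ℕ} (hi : 1 ≤ i) (his : i < s) (Z : Finset (Fin (n + 1)))
    (hT : top Z < n + 1) (e : Fin (s + 1) → Fin (n + 1))
    (he : StrictMono e ∧ ∀ t, (e t ∈ Z ↔ t.val ≠ i)) :
    (StrictMono (flip (top Z) hT e) ∧ ∀ t, (flip (top Z) hT e t ∈ refl Z ↔ t.val ≠ s - i)) ∧
      (∀ t, (e t).val ≤ top Z) := by
  obtain ⟨h1, h2⟩ := he
  have hlast : e (Fin.last s) ∈ Z := by
    rw [h2]
    simp only [Fin.val_last]
    omega
  have hle : ∀ t, (e t).val ≤ top Z := by
    intro t
    have h3 : e t ≤ e (Fin.last s) := h1.monotone (Fin.le_last t)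
    have h4 : (e t).val ≤ (e (Fin.last s)).val := h3
    exact h4.trans (le_top Z hlast)
  refine ⟨⟨fun a b hab => ?_, fun t => ?_⟩, hle⟩
  · have h3 : e (Fin.rev b) < e (Fin.rev a) := h1 (Fin.rev_lt_rev.2 hab)
    have h4 : (e (Fin.rev b)).val < (e (Fin.rev a)).val := h3
    have h5 := hle (Fin.rev a)
    show top Z - (e (Fin.rev a)).val < top Z - (e (Fin.rev b)).val
    omega
  · have h5 := hle (Fin.rev t)
    have h6 : flip (top Z) hT e t ∈ refl Z ↔ e (Fin.rev t) ∈ Z := by
      rw [mem_refl]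
      constructor
      · rintro ⟨z, hz, h⟩
        have h7 : top Z - (e (Fin.rev t)).val + z.val = top Z := h
        have h8 : e (Fin.rev t) = z := Fin.ext (by omega)
        rw [h8]
        exact hz
      · intro h
        refine ⟨_, h, ?_⟩
        show top Z - (e (Fin.rev t)).val + (e (Fin.rev t)).val = top Z
        omega
    rw [h6, h2, Fin.val_rev]
    have := t.2
    constructor <;> intro h <;> omega

lemma F_refl {s i n : ℕ} (hi : 1 ≤ i) (his : i < s) (Z : Finset (Fin (n + 1)))
    (h0 : (0 : Fin (n + 1)) ∈ Z) : F s i Z = F s (s - i) (refl Z) := by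
  have hT : top Z < n + 1 := by
    obtain ⟨z, hz, h⟩ := exists_top Z ⟨0, h0⟩
    have := z.2
    omega
  have hT' : top (refl Z) < n + 1 := by
    rw [top_refl Z h0]
    exact hT
  have hss : s - (s - i) = i := by omega
  unfold F
  refine Nat.card_congr ⟨fun e => ⟨flip (top Z) hT e.1, (flip_spec hi his Z hT e.1 e.2).1⟩,
    fun e => ⟨flip (top (refl Z)) hT' e.1, ?_⟩, ?_, ?_⟩
  · have h := (flip_spec (i := s - i) (by omega) (by omega) (refl Z) hT' e.1
      e.2).1
    rw [refl_refl Z h0, hss] at h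
    exact h
  · intro e
    apply Subtype.ext
    funext t
    apply Fin.ext
    have h := (flip_spec hi his Z hT e.1 e.2).2 t
    show top (refl Z) - (top Z - (e.1 (Fin.rev (Fin.rev t))).val) = (e.1 t).val
    rw [top_refl Z h0, Fin.rev_rev]
    omega
  · intro e
    apply Subtype.ext
    funext t
    apply Fin.ext
    have h := (flip_spec (i := s - i) (by omega) (by omega) (refl Z) hT' e.1
      e.2).2 t
    rw [top_refl Z h0] at h
    show top Z - (top (refl Z) - (e.1 (Fin.rev (Fin.rev t))).val) = (e.1 t).val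
    rw [top_refl Z h0, Fin.rev_rev]
    omega

lemma count_succ {s i : ℕ} (hi : 1 ≤ i) (his : i < s) (n k : ℕ) :
    count (n + 1) k (pat s i) =
      ∑ Z ∈ univ.filter (fun Z : Finset (Fin (n + 1)) => (0 : Fin (n + 1)) ∈ Z),
        Nat.card {u : Fin (Zᶜ.card) → ℕ // IsRGF u ∧ copies (pat s i) u + F s i Z = k} := by
  classical
  unfold count
  have h1 : Nat.card {w : Fin (n + 1) → ℕ // IsRGF w ∧ copies (pat s i) w = k} =
      ∑ Z : Finset (Fin (n + 1)), Nat.card {w : Fin (n + 1) → ℕ //
        (IsRGF w ∧ copies (pat s i) w = k) ∧ (univ.filter fun p => w p = 1) = Z} := by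
    have hf : ∀ Z : Finset (Fin (n + 1)), Finite {w : Fin (n + 1) → ℕ //
        (IsRGF w ∧ copies (pat s i) w = k) ∧ (univ.filter fun p => w p = 1) = Z} :=
      fun Z => finite_rgf _ _ (fun w hw => hw.1.1)
    rw [← Nat.card_sigma]
    refine Nat.card_congr ⟨fun w => ⟨univ.filter fun p => w.1 p = 1, w.1, w.2, rfl⟩,
      fun x => ⟨x.2.1, x.2.2.1⟩, fun w => rfl, ?_⟩
    rintro ⟨Z, w, hw, rfl⟩
    rfl
  rw [h1, ← Finset.sum_filter_add_sum_filter_not univ
    (fun Z : Finset (Fin (n + 1)) => (0 : Fin (n + 1)) ∈ Z)]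
  rw [Finset.sum_eq_zero (s := univ.filter (fun Z : Finset (Fin (n + 1)) => ¬ (0 : Fin (n + 1)) ∈ Z)),
    add_zero]
  · refine Finset.sum_congr rfl fun Z hZ => ?_
    exact card_fiber hi his k Z (mem_filter.1 hZ).2
  · intro Z hZ
    rw [Nat.card_eq_zero]
    left
    refine ⟨?_⟩
    rintro ⟨w, ⟨hw, -⟩, hwZ⟩
    apply (mem_filter.1 hZ).2
    rw [← hwZ, mem_filter]
    exact ⟨mem_univ _, hw.2.1 0 rfl⟩

lemma count_shift {s i : ℕ} (m k f : ℕ)
    (h : ∀ k, count m k (pat s i) = count m k (pat s (s - i))) :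
    Nat.card {u : Fin m → ℕ // IsRGF u ∧ copies (pat s i) u + f = k} =
    Nat.card {u : Fin m → ℕ // IsRGF u ∧ copies (pat s (s - i)) u + f = k} := by
  by_cases hf : f ≤ k
  · have e : ∀ v : Fin (s + 1) → ℕ,
        Nat.card {u : Fin m → ℕ // IsRGF u ∧ copies v u + f = k} = count m (k - f) v := by
      intro v
      unfold count
      refine Nat.card_congr (Equiv.subtypeEquivRight fun u => ?_)
      constructor
      · rintro ⟨h1, h2⟩
        exact ⟨h1, by omega⟩
      · rintro ⟨h1, h2⟩
        exact ⟨h1, by omega⟩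
    rw [e, e, h]
  · have e : ∀ v : Fin (s + 1) → ℕ,
        Nat.card {u : Fin m → ℕ // IsRGF u ∧ copies v u + f = k} = 0 := by
      intro v
      rw [Nat.card_eq_zero]
      left
      refine ⟨?_⟩
      rintro ⟨u, -, h2⟩
      omega
    rw [e, e]

theorem mirror {s i : ℕ} (hi : 1 ≤ i) (his : i < s) (n : ℕ) :
    ∀ k, count n k (pat s i) = count n k (pat s (s - i)) := by
  induction n using Nat.strong_induction_on with
  | _ n ih =>
    intro k
    rcases n with _ | n
    · unfold count
      refine Nat.card_congr (Equiv.subtypeEquivRight fun w => ?_)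
      have e : ∀ v : Fin (s + 1) → ℕ, copies v w = 0 := by
        intro v
        unfold copies
        rw [Nat.card_eq_zero]
        left
        exact ⟨fun e => (e.1 0).elim0⟩
      rw [e, e]
    · rw [count_succ hi his, count_succ (i := s - i) (by omega) (by omega)]
      refine Finset.sum_nbij' refl refl ?_ ?_ ?_ ?_ ?_
      · intro Z hZ
        rw [mem_filter] at hZ ⊢
        exact ⟨mem_univ _, zero_mem_refl Z hZ.2⟩
      · intro Z hZ
        rw [mem_filter] at hZ ⊢
        exact ⟨mem_univ _, zero_mem_refl Z hZ.2⟩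
      · intro Z hZ
        exact refl_refl Z (mem_filter.1 hZ).2
      · intro Z hZ
        exact refl_refl Z (mem_filter.1 hZ).2
      · intro Z hZ
        have h0 := (mem_filter.1 hZ).2
        have hc : (refl Z)ᶜ.card = Zᶜ.card := by
          rw [card_compl, card_compl, card_refl Z h0]
        have hlt : Zᶜ.card < n + 1 := by
          rw [card_compl, Fintype.card_fin]
          have : 0 < Z.card := Finset.card_pos.2 ⟨0, h0⟩
          omega
        rw [hc, ← F_refl hi his Z h0]
        exact count_shift _ _ _ (ih _ hlt)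

/-- **Main result.** For `1 ≤ i < s` the patterns `1^i 2 1^(s-i)` and `1^(s-i) 2 1^i` are `k`-Wilf
equivalent for every `k`; in particular there are two distinct patterns, for instance `1121` and
`1211`, that are `k`-Wilf equivalent for every `k ≥ 0`. -/
theorem result :
    (∀ s i : ℕ, 1 ≤ i → i < s → ∀ n k : ℕ, count n k (pat s i) = count n k (pat s (s - i))) ∧
    ∃ (m : ℕ) (v w : Fin m → ℕ), IsRGF v ∧ IsRGF w ∧ v ≠ w ∧
      ∀ n k : ℕ, count n k v = count n k w := by
  refine ⟨fun s i hi his n k => mirror hi his n k, 4, pat 3 2, pat 3 1, ?_, ?_, ?_, ?_⟩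
  · unfold IsRGF
    decide
  · unfold IsRGF
    decide
  · decide
  · intro n k
    exact mirror (s := 3) (i := 2) (by omega) (by omega) n k

end Pool.Agent.Results.MP_2348bc_co.MirrorPatterns
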